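import Pool.Agent.XD.Defs

/-!
# XE: the permanent needs `exp (c sqrt n)` at depth three: definitions

The hard polynomial is the sum over all sets `T` of classes of the product of the permanents of two
principal submatrices.
-/

set_option autoImplicit false

namespace Pool.XE

open Finset

/-- the letters: the entries of a matrix of order `K` and of a matrix of order `K + z` -/
abbrev Lt (K z : ℕ) : Type := (Fin K × Fin K) ⊕ ((Fin K ⊕ Fin z) × (Fin K ⊕ Fin z))

/-- the entries of the first matrix are contracted, those of the second one multiply -/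
def tyE (K z : ℕ) (l : Lt K z) : Bool := l.isLeft

/-- the classes of `T` and all extra indices -/
def up {K : ℕ} (z : ℕ) (T : Finset (Fin K)) : Finset (Fin K ⊕ Fin z) := T.disjSum univ

/-- the matrix `M` with unit rows outside `T`; its permanent is that of the principal submatrix -/
def cutM {τ R : Type} [DecidableEq τ] [CommRing R] (T : Finset τ) (M : Matrix τ τ R) :
    Matrix τ τ R :=
  Matrix.of fun i j => if i ∈ T then M i j else if i = j then 1 else 0

/-- the hard polynomial -/
noncomputable def FF (K z : ℕ) (R : Type) [CommRing R] : MvPolynomial (Lt K z) R :=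
  ∑ T : Finset (Fin K),
    (cutM T (Matrix.of fun i j => MvPolynomial.X (Sum.inl (i, j)))).permanent *
    (cutM (up z T) (Matrix.of fun i j => MvPolynomial.X (Sum.inr (i, j)))).permanent

section matchings

variable {τ : Type} [Fintype τ] [DecidableEq τ]

/-- the permutations which fix everything outside `T` -/
def Fx (T : Finset τ) : Finset (Equiv.Perm τ) := univ.filter fun p => ∀ i, i ∉ T → p i = i

/-- the cells of a matching of `T` -/
def cel (T : Finset τ) (p : Equiv.Perm τ) (i j : τ) : ℕ := if i ∈ T ∧ p i = j then 1 else 0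

/-- quadruples of sets with equal sums -/
def QT (T1 T2 T3 T4 : Finset τ) : Prop := ∀ i : τ,
  (if i ∈ T1 then 1 else 0) + (if i ∈ T3 then 1 else 0) =
    (if i ∈ T2 then 1 else 0) + (if i ∈ T4 then 1 else 0 : ℕ)

/-- quadruples of matchings with equal sums -/
def QP (T1 T2 T3 T4 : Finset τ) :
    Finset ((Equiv.Perm τ × Equiv.Perm τ) × (Equiv.Perm τ × Equiv.Perm τ)) :=
  ((Fx T1 ×ˢ Fx T2) ×ˢ (Fx T3 ×ˢ Fx T4)).filter fun q =>
    ∀ i j, cel T1 q.1.1 i j + cel T3 q.2.1 i j = cel T2 q.1.2 i j + cel T4 q.2.2 i j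

end matchings

/-- the sum of one side -/
noncomputable def GS (m n a : ℕ) (o : ℝ) : ℝ :=
  ∑ u ∈ range (m + 1), ((m.choose u : ℝ) ^ 2 *
    (((a + u).factorial : ℝ) * ((n - a - u).factorial : ℝ)) ^ 2) * o ^ (a + u)

/-- the words: a set of `w` classes and a matching of each side -/
abbrev Wd (K z w : ℕ) : Type :=
  {s : Finset (Fin K) × (Equiv.Perm (Fin K) × Equiv.Perm (Fin K ⊕ Fin z)) //
    s.1.card = w ∧ s.2.1 ∈ Fx s.1 ∧ s.2.2 ∈ Fx (up z s.1)}

noncomputable instance (K z w : ℕ) : Fintype (Wd K z w) := by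
  classical
  exact Subtype.fintype _

/-- the exponent of a word -/
def exw {K z : ℕ} (T : Finset (Fin K)) (p : Equiv.Perm (Fin K))
    (q : Equiv.Perm (Fin K ⊕ Fin z)) (l : Lt K z) : ℕ :=
  match l with
  | Sum.inl x => cel T p x.1 x.2
  | Sum.inr x => cel (up z T) q x.1 x.2

end Pool.XE
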